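import Mathlib

/-!
# Residues of integers with restricted digits, for the moduli for which the order of the base is small

Konyagin's question asks for a `σ`, which depends on the base `s` and the set `D` of digits only, such that every residue
class modulo every `q ≥ 2` prime to `s` contains a positive integer smaller than `q ^ σ` with digits in `D`. Known is
`exp (σ log q log log q)` in the place of `q ^ σ`. Here the bound `s ^ (J m)` is proved, where `m` is the order
of `s` modulo `q`; so the answer is yes for the moduli for which `s` has a small order: all `q` which divide a number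
`s ^ m - 1 ≤ q ^ C`, for any fixed `C` (the order of `s` modulo `q` is then at most `C log q / log s`); for example all the
numbers `s ^ m - 1` themselves and their divisors larger than a fixed power of them.
-/

set_option autoImplicit false

namespace Pool.Agent.Results.MP_1ace43_nt.SmallOrder

open Finset

/-- `x` belongs to `K_s^D(N)`: it is a positive integer smaller than `N`, and the sum of `δ_j s ^ j`, `0 ≤ j ≤ h`, for some `h` and
some `δ_j` in `D`. -/
def InK (s : ℕ) (D : Finset ℕ) (N x : ℕ) : Prop :=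
  0 < x ∧ x < N ∧ ∃ (h : ℕ) (δ : ℕ → ℕ), (∀ j, j ≤ h → δ j ∈ D) ∧ x = ∑ j ∈ range (h + 1), δ j * s ^ j

/-- the pair `(s, D)` is admissible: `D` has `k + 1` elements with `1 ≤ k ≤ s - 2`, contains `0`, its elements are smaller
than `s` and have greatest common divisor `1` -/
def Admissible (s : ℕ) (D : Finset ℕ) : Prop :=
  2 ≤ D.card ∧ D.card + 1 ≤ s ∧ 0 ∈ D ∧ (∀ d ∈ D, d < s) ∧ D.gcd id = 1

lemma frob (D : Finset ℕ) (hg : D.gcd id = 1) : ∃ F, 1 ≤ F ∧ ∀ n, F ≤ n → n ∈ AddSubmonoid.closure (D : Set ℕ) := by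
  obtain ⟨n, hn⟩ := Nat.exists_mem_closure_of_ge (D : Set ℕ)
  refine ⟨n + 1, by omega, fun k hk => hn k (by omega) ?_⟩
  have h1 : Nat.setGcd (D : Set ℕ) ∣ D.gcd id :=
    Finset.dvd_gcd fun d hd => Nat.setGcd_dvd_of_mem (by exact_mod_cast hd)
  rw [hg] at h1
  exact h1.trans (one_dvd _)

lemma rep (D : Finset ℕ) (h0 : 0 ∈ D) (n : ℕ) (hn : n ∈ AddSubmonoid.closure (D : Set ℕ)) :
    ∃ J, ∀ J', J ≤ J' → ∃ c : ℕ → ℕ, (∀ i, c i ∈ D) ∧ ∑ i ∈ range J', c i = n := by
  induction hn using AddSubmonoid.closure_induction with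
  | mem x hx =>
    refine ⟨1, fun J' hJ => ⟨fun i => if i = 0 then x else 0, ?_, ?_⟩⟩
    · intro i
      dsimp only
      split_ifs
      · exact_mod_cast hx
      · exact h0
    · rw [sum_ite_eq' (range J') 0 (fun _ => x)]
      simp
      omega
  | zero => exact ⟨0, fun J' _ => ⟨fun _ => 0, fun _ => h0, by simp⟩⟩
  | add x y _ _ hx hy =>
    obtain ⟨J1, h1⟩ := hx
    obtain ⟨J2, h2⟩ := hy
    refine ⟨J1 + J2, fun J' hJ => ?_⟩
    obtain ⟨c1, e1, f1⟩ := h1 J1 le_rfl
    obtain ⟨c2, e2, f2⟩ := h2 (J' - J1) (by omega)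
    refine ⟨fun i => if i < J1 then c1 i else c2 (i - J1), ?_, ?_⟩
    · intro i
      dsimp only
      split_ifs
      · exact e1 i
      · exact e2 _
    · have h3 : J' = J1 + (J' - J1) := by omega
      rw [h3, sum_range_add, ← f1, ← f2]
      congr 1
      · refine sum_congr rfl fun i hi => ?_
        rw [if_pos (mem_range.1 hi)]
      · refine sum_congr rfl fun i _ => ?_
        rw [if_neg (by omega)]
        congr 1
        omega

lemma common (D : Finset ℕ) (h0 : 0 ∈ D) (F : ℕ) (hF : ∀ n, F ≤ n → n ∈ AddSubmonoid.closure (D : Set ℕ)) (s : ℕ) :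
    ∃ J, ∀ e, e < s → ∃ c : ℕ → ℕ, (∀ i, c i ∈ D) ∧ ∑ i ∈ range J, c i = F + e := by
  have h1 := fun e : ℕ => rep D h0 (F + e) (hF _ (by omega))
  choose J hJ using h1
  refine ⟨∑ e ∈ range s, J e, fun e he => hJ e _ ?_⟩
  exact single_le_sum (f := J) (fun _ _ => Nat.zero_le _) (mem_range.2 he)

lemma digits_sum (s n m : ℕ) : ∑ j ∈ range m, (n / s ^ j % s) * s ^ j = n % s ^ m := by
  induction m with
  | zero => simp [Nat.mod_one]
  | succ m ih => rw [sum_range_succ, ih, Nat.mod_pow_succ, mul_comm]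

lemma concat (s m J : ℕ) (hm : 1 ≤ m) (a : ℕ → ℕ → ℕ) :
    ∑ i ∈ range J, (∑ j ∈ range m, a i j * s ^ j) * s ^ (m * i) = ∑ t ∈ range (m * J), a (t / m) (t % m) * s ^ t := by
  induction J with
  | zero => simp
  | succ J ih =>
    rw [sum_range_succ, ih, mul_add, mul_one, sum_range_add]
    congr 1
    rw [sum_mul]
    refine sum_congr rfl fun j hj => ?_
    have hj' := mem_range.1 hj
    have h1 : (m * J + j) / m = J := by
      rw [Nat.mul_add_div (by omega), Nat.div_eq_of_lt hj', add_zero]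
    have h2 : (m * J + j) % m = j := by
      rw [Nat.mul_add_mod, Nat.mod_eq_of_lt hj']
    rw [h1, h2, pow_add]
    ring

lemma sum_lt (s T : ℕ) (hs : 1 ≤ s) (δ : ℕ → ℕ) (h : ∀ t, δ t < s) : ∑ t ∈ range T, δ t * s ^ t < s ^ T := by
  induction T with
  | zero => simp
  | succ T ih =>
    rw [sum_range_succ, pow_succ]
    have h1 : δ T * s ^ T ≤ (s - 1) * s ^ T := Nat.mul_le_mul_right _ (by have := h T; omega)
    have h2 : s ^ T + (s - 1) * s ^ T = s ^ T * s := by
      obtain ⟨r, rfl⟩ : ∃ r, s = r + 1 := ⟨s - 1, by omega⟩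
      rw [Nat.add_sub_cancel]
      ring
    omega

theorem main (s : ℕ) (D : Finset ℕ) (hD : Admissible s D) : ∃ J : ℕ, ∀ q m : ℕ, 2 ≤ q → 1 ≤ m →
    q ∣ s ^ m - 1 → ∀ N : ℕ, s ^ (m * J) ≤ N → ∀ l : ℕ, ∃ x, InK s D N x ∧ x ≡ l [MOD q] := by
  obtain ⟨hc, hk, h0, hlt, hg⟩ := hD
  have hs : 2 ≤ s := by omega
  obtain ⟨F, hF1, hF⟩ := frob D hg
  obtain ⟨J, hJ⟩ := common D h0 F hF s
  refine ⟨J, fun q m hq hm hqm N hN l => ?_⟩
  have hsm1 : 1 ≤ s ^ m := Nat.one_le_pow _ _ (by omega)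
  have h1 : ∀ e : ℕ, ∃ c : ℕ → ℕ, (∀ i, c i ∈ D) ∧ ∑ i ∈ range J, c i = F + e % s := fun e =>
    hJ (e % s) (Nat.mod_lt _ (by omega))
  choose c hcD hcs using h1
  have hJ0 : J ≠ 0 := by
    intro h
    have h2 := hcs 0
    rw [h] at h2
    simp at h2
    omega
  obtain ⟨G, hG⟩ : ∃ G : ℕ, G = ∑ j ∈ range m, s ^ j := ⟨_, rfl⟩
  obtain ⟨n, hn⟩ : ∃ n : ℕ, n = (l + (q - 1) * (F * G)) % q := ⟨_, rfl⟩
  have hnq : n < q := by rw [hn]; exact Nat.mod_lt _ (by omega)
  have hqs : q ≤ s ^ m - 1 := by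
    apply Nat.le_of_dvd _ hqm
    have : 2 ≤ s ^ m := hs.trans (Nat.le_self_pow (by omega) s)
    omega
  have hns : n < s ^ m := by omega
  obtain ⟨a, ha⟩ : ∃ a : ℕ → ℕ → ℕ, a = fun i j => c (n / s ^ j) i := ⟨_, rfl⟩
  have haD : ∀ i j, a i j ∈ D := by
    intro i j
    rw [ha]
    exact hcD _ _
  obtain ⟨x, hx⟩ : ∃ x : ℕ, x = ∑ i ∈ range J, (∑ j ∈ range m, a i j * s ^ j) * s ^ (m * i) := ⟨_, rfl⟩
  have hx2 : x = ∑ t ∈ range (m * J), a (t / m) (t % m) * s ^ t := by rw [hx, concat s m J hm a]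
  have hA : ∑ i ∈ range J, (∑ j ∈ range m, a i j * s ^ j) = F * G + n := by
    rw [sum_comm]
    have h2 : ∀ j ∈ range m, ∑ i ∈ range J, a i j * s ^ j = F * s ^ j + (n / s ^ j % s) * s ^ j := by
      intro j _
      rw [← sum_mul, ha, hcs, add_mul]
    rw [sum_congr rfl h2, sum_add_distrib, ← mul_sum, ← hG, digits_sum, Nat.mod_eq_of_lt hns]
  have hG1 : 1 ≤ G := by
    rw [hG]
    calc 1 = s ^ 0 := by simp
      _ ≤ ∑ j ∈ range m, s ^ j := single_le_sum (f := fun j => s ^ j) (fun _ _ => Nat.zero_le _) (mem_range.2 (by omega))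
  have hxA : F * G + n ≤ x := by
    rw [← hA, hx]
    refine sum_le_sum fun i _ => ?_
    exact Nat.le_mul_of_pos_right _ (pow_pos (by omega) _)
  have hmJ : 1 ≤ m * J := Nat.mul_pos (by omega) (by omega)
  refine ⟨x, ⟨?_, ?_, m * J - 1, fun t => a (t / m) (t % m), fun t _ => haD _ _, ?_⟩, ?_⟩
  · have : 1 ≤ F * G := Nat.mul_pos (by omega) (by omega)
    omega
  · have h2 := sum_lt s (m * J) (by omega) (fun t => a (t / m) (t % m)) (fun t => hlt _ (haD _ _))
    rw [← hx2] at h2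
    exact h2.trans_le hN
  · have h2 : m * J - 1 + 1 = m * J := by omega
    rw [h2]
    exact hx2
  · have h2 : s ^ m ≡ 1 [MOD q] := (Nat.modEq_iff_dvd' hsm1).2 hqm |>.symm
    have h3 : x ≡ F * G + n [MOD q] := by
      rw [← hA, hx]
      refine Nat.ModEq.sum fun i _ => ?_
      have h4 : s ^ (m * i) ≡ 1 [MOD q] := by
        rw [pow_mul]
        simpa using h2.pow i
      simpa using (Nat.ModEq.refl (∑ j ∈ range m, a i j * s ^ j)).mul h4
    refine h3.trans ?_
    have h5 : n ≡ l + (q - 1) * (F * G) [MOD q] := by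
      rw [hn]
      exact Nat.mod_modEq _ _
    have h6 : F * G + n ≡ F * G + (l + (q - 1) * (F * G)) [MOD q] := h5.add_left _
    refine h6.trans ?_
    have h7 : F * G + (l + (q - 1) * (F * G)) = l + q * (F * G) := by
      obtain ⟨r, rfl⟩ : ∃ r, q = r + 1 := ⟨q - 1, by omega⟩
      rw [Nat.add_sub_cancel]
      ring
    rw [h7]
    exact (Nat.modEq_iff_dvd' (Nat.le_add_right _ _)).2 (by simp) |>.symm

/-- **Integers with restricted digits in residue classes, in terms of the order of the base.** Let `(s, D)` be an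
admissible pair. There is `J`, which depends on `s` and `D` only, with the following properties.

(1) For all `q ≥ 2` and `m ≥ 1` with `q ∣ s ^ m - 1` (for example `m` = the order of `s` modulo `q`), for every
`N ≥ s ^ (J m)` and every residue class `l` modulo `q`, some `x` in `K_s^D(N)` is congruent to `l` modulo `q`.

(2) So the answer to Q1 is yes, with `σ = C J`, for the moduli `q ≥ 2` which divide some `s ^ m - 1 ≤ q ^ C`, `m ≥ 1`: for these
every `N ≥ q ^ (C J)` has the property. -/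
theorem result (s : ℕ) (D : Finset ℕ) (hD : Admissible s D) : ∃ J : ℕ,
    (∀ q m : ℕ, 2 ≤ q → 1 ≤ m → q ∣ s ^ m - 1 → ∀ N : ℕ, s ^ (J * m) ≤ N → ∀ l : ℕ, ∃ x, InK s D N x ∧ x ≡ l [MOD q]) ∧
    (∀ C q m : ℕ, 2 ≤ q → 1 ≤ m → q ∣ s ^ m - 1 → s ^ m ≤ q ^ C → ∀ N : ℕ, q ^ (C * J) ≤ N →
      ∀ l : ℕ, ∃ x, InK s D N x ∧ x ≡ l [MOD q]) := by
  obtain ⟨J, hJ⟩ := main s D hD
  refine ⟨J, fun q m hq hm hqm N hN l => hJ q m hq hm hqm N (by rwa [mul_comm]) l,
    fun C q m hq hm hqm hsm N hN l => hJ q m hq hm hqm N ?_ l⟩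
  calc s ^ (m * J) = (s ^ m) ^ J := by rw [pow_mul]
    _ ≤ (q ^ C) ^ J := Nat.pow_le_pow_left hsm _
    _ = q ^ (C * J) := by rw [pow_mul]
    _ ≤ N := hN

end Pool.Agent.Results.MP_1ace43_nt.SmallOrder
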